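import Pool.Agent.H91.NV.LTargets

/-!
# Module L_LOP of the board nvk_modules: the means at all small primes together
-/

set_option autoImplicit false

open MeasureTheory Set Filter NumberField NumberField.InfinitePlace
open scoped Real

namespace Pool.Agent.H13.NVK

open Pool.Agent.H65.CM4 Pool.Agent.H61.NVK Pool.Agent.H89.NV Pool.Agent.H91.NV

variable (k : Type) [Field k] [NumberField k] [IsTotallyReal k]

omit [IsTotallyReal k] in
theorem wbar_eq (f q : Ideal (𝓞 k)) (w : WW k) (e A : Ideal (𝓞 k)) :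
    wbar f q w e A = mBC f A q (w e A) := by
  unfold wbar mBC mI
  have h : (1 : ℝ) / nm q ^ 2 = 1 / nm q * (1 / nm q) := by ring
  rw [h]
  simp only [Finset.mul_sum, mul_assoc]

omit [IsTotallyReal k] in
theorem mBC_congr (f A q : Ideal (𝓞 k)) (F G : 𝓞 k → 𝓞 k → ℝ)
    (h : ∀ b ∈ f, ∀ c ∈ A * f ^ 2, F b c = G b c) : mBC f A q F = mBC f A q G := by
  classical
  unfold mBC mI
  congr 1
  apply Finset.sum_congr rfl
  intro b hb
  dsimp only
  congr 1
  apply Finset.sum_congr rfl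
  intro c hc
  exact h b (Finset.mem_filter.1 hb).2 c (Finset.mem_filter.1 hc).2

omit [IsTotallyReal k] in
theorem qN_ne (R : Finset (PrI k)) : qN R ≠ ⊥ := by
  unfold qN
  apply mul_ne_zero
  · unfold ni
    intro h
    have h1 : ((4 : ℕ) : 𝓞 k) = 0 := Ideal.span_singleton_eq_bot.1 h
    exact absurd h1 (Nat.cast_ne_zero.2 (by norm_num))
  · apply pow_ne_zero
    unfold idS
    rw [Finset.prod_ne_zero_iff]
    intro P _
    exact P.2.2

omit [IsTotallyReal k] in
theorem pf_LOP (hWLP : T_WLP k) (hMPD : T_MPD k) : T_LOP k := by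
  intro f e A R n₁ n₂ hf hA h1 h2
  obtain ⟨hP, hW⟩ := hWLP f e A hf hA
  have hd : idS R ^ 2 ∣ qN R := ⟨ni k 4, by unfold qN; ring⟩
  constructor
  · rw [wbar_eq, mBC_congr k f A (qN R) _ (fun b c => ∏ P ∈ R, wl f P (tt n₁ n₂ P) e A b c)
      (fun b hb c hc => (hW R n₁ n₂ b c h1 h2 hb hc).1)]
    exact hMPD f A (qN R) R (fun P => wl f P (tt n₁ n₂ P) e A) hf hA (qN_ne k R) hd
      (fun P _ => (hP P _).1)
  · rw [wbar_eq, mBC_congr k f A (qN R) _
      (fun b c => ∏ P ∈ R, wf f P (if P ∈ n₁ then 1 else 0) b c)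
      (fun b hb c hc => (hW R n₁ n₂ b c h1 h2 hb hc).2)]
    exact hMPD f A (qN R) R (fun P => wf f P (if P ∈ n₁ then 1 else 0)) hf hA (qN_ne k R) hd
      (fun P _ => (hP P _).2)

end Pool.Agent.H13.NVK
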